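import Pool.Agent.helper54.UG.Spec2

set_option autoImplicit false

namespace Pool.Agent.UG

open Matrix Pool.Agent.H48SL

/-- the linear map `s ↦ f (ξ₁(s) c₁ + ξ₂(s) c₂) *ᵥ u` -/
private noncomputable def KFD_L {n : ℕ} {D : Type} [DivisionRing D] [Algebra ℚ D] (f : D →ₐ[ℚ] MQ n)
    (ξ₁ ξ₂ : (Fin n → ℚ) →ₗ[ℚ] D) (c₁ c₂ : D) (u : Fin n → ℚ) : (Fin n → ℚ) →ₗ[ℚ] (Fin n → ℚ) where
  toFun s := f (ξ₁ s * c₁ + ξ₂ s * c₂) *ᵥ u
  map_add' s t := by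
    rw [← add_mulVec, ← map_add]
    congr 2
    rw [map_add, map_add]
    noncomm_ring
  map_smul' q s := by
    rw [RingHom.id_apply, ← smul_mulVec, ← map_smul]
    congr 2
    rw [map_smul, map_smul, smul_mul_assoc, smul_mul_assoc]
    rw [Algebra.smul_def, Algebra.smul_def, Algebra.smul_def, mul_add]

private theorem KFD_notQ (D : Type) [DivisionRing D] [Algebra ℚ D] [FiniteDimensional ℚ D]
    (h : 2 ≤ Module.finrank ℚ D) : ∃ a : D, ∀ q : ℚ, algebraMap ℚ D q ≠ a := by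
  by_contra hne
  push Not at hne
  have h1 : Module.finrank ℚ D ≤ 1 := by
    refine finrank_le_one (1 : D) fun w => ?_
    obtain ⟨q, hq⟩ := hne w
    exact ⟨q, by rw [← hq, Algebra.algebraMap_eq_smul_one]⟩
  omega

theorem KFD (hKAD : KAD_stmt) (hKLF : KLF_stmt) : KFD_stmt := by
  intro n D _ _ _ f H h2 hn hD
  obtain ⟨_, ⟨ξ₁, ξ₂, e₁, e₂, hξ1, hξ2, h11, h12, h21, h22⟩, _⟩ := hKLF (n + 1) D f hn
  obtain ⟨sh, nm, hsh, hsh1, hnm1, hpoly⟩ := hKAD D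
  obtain ⟨a, ha⟩ := KFD_notQ D h2
  obtain ⟨c₁, hc₁⟩ : ∃ c₁ : (Fin (n + 1) → ℚ) → D, c₁ = fun u => nm (ξ₂ u) • sh (ξ₁ u) := ⟨_, rfl⟩
  obtain ⟨c₂, hc₂⟩ : ∃ c₂ : (Fin (n + 1) → ℚ) → D, c₂ = fun u => -(nm (ξ₁ u) • sh (ξ₂ u)) := ⟨_, rfl⟩
  obtain ⟨X, hX⟩ : ∃ X : (Fin (n + 1) → ℚ) → MQ (n + 1), X = fun u =>
    LinearMap.toMatrix' (KFD_L f ξ₁ ξ₂ (c₁ u) (c₂ u) u) := ⟨_, rfl⟩
  have hXm : ∀ u s, X u *ᵥ s = f (ξ₁ s * c₁ u + ξ₂ s * c₂ u) *ᵥ u := by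
    intro u s
    rw [hX]
    exact LinearMap.toMatrix'_mulVec _ _
  have hkill : ∀ u, X u *ᵥ u = 0 := by
    intro u
    rw [hXm, hc₁, hc₂]
    have e1 : ξ₁ u * (nm (ξ₂ u) • sh (ξ₁ u)) + ξ₂ u * (-(nm (ξ₁ u) • sh (ξ₂ u))) = 0 := by
      rw [mul_neg, mul_smul_comm, mul_smul_comm, hsh, hsh, Algebra.algebraMap_eq_smul_one,
        Algebra.algebraMap_eq_smul_one, smul_smul, smul_smul, mul_comm, add_neg_cancel]
    show f (ξ₁ u * (nm (ξ₂ u) • sh (ξ₁ u)) + ξ₂ u * (-(nm (ξ₁ u) • sh (ξ₂ u)))) *ᵥ u = 0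
    rw [e1, map_zero, zero_mulVec]
  have hcom' : ∀ u c s, X u *ᵥ (f c *ᵥ s) = f c *ᵥ (X u *ᵥ s) := by
    intro u c s
    rw [hXm, hXm, hξ1, hξ2, mulVec_mulVec, ← map_mul]
    congr 2
    noncomm_ring
  have hcom : ∀ u c, f c * X u = X u * f c := by
    intro u c
    apply Matrix.ext_of_mulVec_single
    intro i
    rw [← mulVec_mulVec, ← mulVec_mulVec, hcom']
  have hsq : ∀ u, X u * X u = 0 := by
    intro u
    apply Matrix.ext_of_mulVec_single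
    intro i
    rw [← mulVec_mulVec, hXm u (Pi.single i 1), hcom', hkill, mulVec_zero, zero_mulVec]
  refine ⟨X, ?_, hkill, ?_, ?_, ?_⟩
  · intro i j
    have hk : ∀ l : Fin (n + 1), ∃ P : MvPolynomial (Fin (n + 1)) ℚ, ∀ u,
        (f (ξ₁ (Pi.single j 1) * c₁ u + ξ₂ (Pi.single j 1) * c₂ u)) i l = MvPolynomial.eval u P := by
      intro l
      let μ : D → (D →ₗ[ℚ] ℚ) := fun d =>
        { toFun := fun c => (f (d * c)) i l
          map_add' := fun x y => by rw [mul_add, map_add]; rfl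
          map_smul' := fun q x => by rw [mul_smul_comm, map_smul]; rfl }
      obtain ⟨P₁, hP₁⟩ := (hpoly (n + 1) ξ₁).1
      obtain ⟨P₂, hP₂⟩ := (hpoly (n + 1) ξ₂).1
      obtain ⟨Q₁, hQ₁⟩ := (hpoly (n + 1) ξ₁).2 (μ (ξ₁ (Pi.single j 1)))
      obtain ⟨Q₂, hQ₂⟩ := (hpoly (n + 1) ξ₂).2 (μ (ξ₂ (Pi.single j 1)))
      refine ⟨P₂ * Q₁ - P₁ * Q₂, fun u => ?_⟩
      have e1 : (f (ξ₁ (Pi.single j 1) * sh (ξ₁ u))) i l = MvPolynomial.eval u Q₁ := hQ₁ u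
      have e2 : (f (ξ₂ (Pi.single j 1) * sh (ξ₂ u))) i l = MvPolynomial.eval u Q₂ := hQ₂ u
      rw [map_sub, map_mul, map_mul, ← hP₁, ← hP₂, ← e1, ← e2, hc₁, hc₂]
      show (f (ξ₁ (Pi.single j 1) * (nm (ξ₂ u) • sh (ξ₁ u)) +
        ξ₂ (Pi.single j 1) * (-(nm (ξ₁ u) • sh (ξ₂ u))))) i l = _
      rw [mul_neg, mul_smul_comm, mul_smul_comm, ← sub_eq_add_neg, map_sub, map_smul, map_smul]
      rfl
    choose P hP using hk
    refine ⟨∑ l, P l * MvPolynomial.X l, fun u => ?_⟩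
    have e1 : X u i j = (X u *ᵥ Pi.single j 1) i := by
      rw [mulVec_single_one]
      rfl
    rw [e1, hXm, map_sum]
    show ∑ l, _ * u l = _
    refine Finset.sum_congr rfl fun l _ => ?_
    rw [map_mul, MvPolynomial.eval_X, ← hP]
  · intro u
    exact ⟨2, by rw [sq, hsq]⟩
  · intro u
    obtain ⟨k, hk, h, hh, hq⟩ := hD (X u) (hcom u) (hsq u)
    refine ⟨k, hk, h, hh, ?_⟩
    have e1 : ((k : ℚ) • X u) ^ 2 = 0 := by
      rw [sq, smul_mul_smul_comm, hsq, smul_zero]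
    rw [hq, IsNilpotent.exp_eq_sum e1]
    simp [Finset.sum_range_succ]
  · by_contra hne
    push Not at hne
    obtain ⟨u, hu⟩ : ∃ u, u = e₁ + e₂ := ⟨_, rfl⟩
    have hu1 : ξ₁ u = 1 := by rw [hu, map_add, h11, h12, add_zero]
    have hu2 : ξ₂ u = 1 := by rw [hu, map_add, h21, h22, zero_add]
    have hc1 : c₁ u = 1 := by
      rw [hc₁]
      show nm (ξ₂ u) • sh (ξ₁ u) = 1
      rw [hu1, hu2, hnm1, hsh1, one_smul]
    have hw : X u *ᵥ (f a *ᵥ e₁) = f a *ᵥ u := by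
      rw [hXm, hξ1, hξ2, h11, h21, mul_one, mul_zero, zero_mul, add_zero, hc1, mul_one]
    have hu0 : u ≠ 0 := by
      intro h0
      rw [h0, map_zero] at hu1
      exact zero_ne_one hu1
    obtain ⟨i, hi⟩ := Function.ne_iff.1 hu0
    have hi' : u i ≠ 0 := hi
    have h3 : ∀ j, (f a *ᵥ u) j = ((f a *ᵥ u) i / u i) * u j := by
      intro j
      have h4 := hne u (f a *ᵥ e₁) i j
      rw [hw] at h4
      field_simp
      linarith
    obtain ⟨q, hq⟩ : ∃ q, q = (f a *ᵥ u) i / u i := ⟨_, rfl⟩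
    rw [← hq] at h3
    have h5 : f (a - algebraMap ℚ D q) *ᵥ u = 0 := by
      rw [map_sub, AlgHom.commutes, sub_mulVec, Algebra.algebraMap_eq_smul_one, smul_mulVec,
        one_mulVec, sub_eq_zero]
      funext j
      rw [h3 j]
      rfl
    have h6 : a - algebraMap ℚ D q ≠ 0 := fun h0 => ha q (sub_eq_zero.1 h0).symm
    apply hu0
    calc u = f ((a - algebraMap ℚ D q)⁻¹ * (a - algebraMap ℚ D q)) *ᵥ u := by
          rw [inv_mul_cancel₀ h6, map_one, one_mulVec]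
      _ = 0 := by rw [map_mul, ← mulVec_mulVec, h5, mulVec_zero]

end Pool.Agent.UG
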