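import Pool.Agent.helper54.UG.Spec

set_option autoImplicit false

namespace Pool.Agent.UG

open Matrix Pool.Agent.H48SL

/-- the filtration -/
private noncomputable def MAL_fil {n : ℕ} (A : Subgroup (SLZ n)) (i : ℕ) : Submodule ℚ (MQ n) :=
  Submodule.span ℚ {M | ∃ l : List (SLZ n), (∀ a ∈ l, a ∈ A) ∧ i ≤ l.length ∧
    M = (l.map (fun a => qg a - 1)).prod}

private theorem MAL_mul {n : ℕ} (A : Subgroup (SLZ n)) (i j : ℕ) (X : MQ n) (hX : X ∈ MAL_fil A i)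
    (Y : MQ n) (hY : Y ∈ MAL_fil A j) : X * Y ∈ MAL_fil A (i + j) := by
  have h1 : X * Y ∈ MAL_fil A i * MAL_fil A j := Submodule.mul_mem_mul hX hY
  unfold MAL_fil at h1
  rw [Submodule.span_mul_span] at h1
  refine Submodule.span_mono ?_ h1
  rintro M ⟨M1, ⟨l1, h11, h12, h13⟩, M2, ⟨l2, h21, h22, h23⟩, rfl⟩
  refine ⟨l1 ++ l2, ?_, ?_, ?_⟩
  · intro a ha
    rcases List.mem_append.1 ha with h | h
    · exact h11 a h
    · exact h21 a h
  · rw [List.length_append]; omega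
  · rw [List.map_append, List.prod_append, ← h13, ← h23]

private theorem MAL_succ {n : ℕ} (A : Subgroup (SLZ n)) (i : ℕ) : MAL_fil A (i + 1) ≤ MAL_fil A i := by
  refine Submodule.span_mono ?_
  rintro M ⟨l, h1, h2, h3⟩
  exact ⟨l, h1, by omega, h3⟩

private theorem MAL_le {n : ℕ} (A : Subgroup (SLZ n)) {i j : ℕ} (h : i ≤ j) :
    MAL_fil A j ≤ MAL_fil A i := antitone_nat_of_succ_le (MAL_succ A) h

private theorem MAL_bot {n : ℕ} (A : Subgroup (SLZ n)) (h : UNil A) : ∃ N, MAL_fil A N = ⊥ := by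
  obtain ⟨N, hN⟩ := h
  refine ⟨N, ?_⟩
  unfold MAL_fil
  rw [Submodule.span_eq_bot]
  rintro M ⟨l, h1, h2, rfl⟩
  exact hN l h1 h2

private theorem MAL_one {n : ℕ} (A : Subgroup (SLZ n)) : (1 : MQ n) ∈ MAL_fil A 0 :=
  Submodule.subset_span ⟨[], by simp, by simp, by simp⟩

private theorem MAL_pow {n : ℕ} (A : Subgroup (SLZ n)) (X : MQ n) (hX : X ∈ MAL_fil A 1) (i : ℕ) :
    X ^ i ∈ MAL_fil A i := by
  induction i with
  | zero => rw [pow_zero]; exact MAL_one A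
  | succ i ih => rw [pow_succ]; exact MAL_mul A i 1 _ ih X hX

private theorem MAL_nil {n : ℕ} (A : Subgroup (SLZ n)) (h : UNil A) (X : MQ n)
    (hX : X ∈ MAL_fil A 1) : IsNilpotent X := by
  obtain ⟨N, hN⟩ := MAL_bot A h
  refine ⟨N, ?_⟩
  have := MAL_pow A X hX N
  rwa [hN, Submodule.mem_bot] at this

private theorem MAL_exp {n : ℕ} (A : Subgroup (SLZ n)) (h : UNil A) (X : MQ n)
    (hX : X ∈ MAL_fil A 1) : IsNilpotent.exp X - 1 ∈ MAL_fil A 1 := by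
  obtain ⟨N, hN⟩ := MAL_nil A h X hX
  have h1 : X ^ (N + 1) = 0 := by rw [pow_succ, hN, zero_mul]
  rw [IsNilpotent.exp_eq_sum h1, Finset.sum_range_succ']
  simp only [Nat.factorial_zero, Nat.cast_one, inv_one, pow_zero, one_smul, add_sub_cancel_right]
  exact Submodule.sum_mem _ fun i _ => Submodule.smul_mem _ _
    (MAL_le A (by omega) (MAL_pow A X hX (i + 1)))

private theorem MAL_aev {n : ℕ} (A : Subgroup (SLZ n)) (N : MQ n) (hN : N ∈ MAL_fil A 1)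
    (P : Polynomial ℚ) (hP : Polynomial.X ∣ P) : Polynomial.aeval N P ∈ MAL_fil A 1 := by
  obtain ⟨Q, rfl⟩ := hP
  rw [map_mul, Polynomial.aeval_X]
  refine MAL_mul A 1 0 N hN _ ?_
  rw [Polynomial.aeval_eq_sum_range]
  exact Submodule.sum_mem _ fun i _ => Submodule.smul_mem _ _
    (MAL_le A (Nat.zero_le _) (MAL_pow A N hN i))

private theorem MAL_zpow (hEXJ : EXJ_stmt) {n : ℕ} (a : SLZ n) (Y : MQ n) (hY : IsNilpotent Y)
    (h : qg a = IsNilpotent.exp Y) (m : ℤ) : qg (a ^ m) = IsNilpotent.exp ((m : ℚ) • Y) := by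
  have key : ∀ m : ℕ, qg (a ^ m) = IsNilpotent.exp ((m : ℚ) • Y) := by
    intro m
    rw [qg_pow, h]
    exact (hEXJ n Y hY).1 m
  cases m with
  | ofNat m =>
    have := key m
    simpa using this
  | negSucc m =>
    rw [zpow_negSucc]
    have h1 := key (m + 1)
    have h2 : IsNilpotent (((m + 1 : ℕ) : ℚ) • Y) := hY.smul _
    have h3 := IsNilpotent.exp_neg_mul_exp_self h2
    rw [← h1] at h3
    have e1 : ((Int.negSucc m : ℤ) : ℚ) • Y = -(((m + 1 : ℕ) : ℚ) • Y) := by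
      rw [Int.cast_negSucc, neg_smul]
    rw [e1]
    calc qg (a ^ (m + 1))⁻¹ = 1 * qg (a ^ (m + 1))⁻¹ := (one_mul _).symm
      _ = _ := by rw [← h3, mul_assoc, qg_mul_inv, mul_one]

theorem MAL (hEXJ : EXJ_stmt) (hLG : LG_stmt) (hISO : ISO_stmt) (hLIN : LIN_stmt)
    (hUGN : UGN_stmt) : MAL_stmt := by
  intro n A hA
  obtain ⟨P, hP1, hP2, hP3⟩ := hLG n
  have hPX : Polynomial.X ∣ P := by
    have h1 : (Polynomial.X : Polynomial ℚ) ∣ P - Polynomial.X :=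
      (dvd_pow_self _ two_ne_zero).trans hP1
    have h2 := dvd_add h1 (dvd_refl (Polynomial.X : Polynomial ℚ))
    rwa [sub_add_cancel] at h2
  have hm := MAL_mul A
  have hs := MAL_succ A
  have hb := MAL_bot A hA
  obtain ⟨U, hU1, hU2, hU3⟩ := hUGN n (MAL_fil A) hm hs hb
  obtain ⟨S, hS⟩ : ∃ S : Set (MQ n), S = {X | X ∈ MAL_fil A 1 ∧ ∃ k : ℕ, 1 ≤ k ∧ ∃ a ∈ A,
    qg a = IsNilpotent.exp ((k : ℚ) • X)} := ⟨_, rfl⟩
  have hmS : ∀ X, X ∈ S ↔ X ∈ MAL_fil A 1 ∧ ∃ k : ℕ, 1 ≤ k ∧ ∃ a ∈ A,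
      qg a = IsNilpotent.exp ((k : ℚ) • X) := by
    intro X
    rw [hS]
    rfl
  have hS1 : ∀ X ∈ S, X ∈ MAL_fil A 1 := fun X hX => ((hmS X).1 hX).1
  have hS0 : (0 : MQ n) ∈ S := by
    rw [hmS]
    refine ⟨Submodule.zero_mem _, 1, le_rfl, 1, A.one_mem, ?_⟩
    rw [qg_one, smul_zero, IsNilpotent.exp_zero]
  have hSs : ∀ X ∈ S, ∀ t : ℚ, t • X ∈ S := by
    intro X hX t
    obtain ⟨h1, k, hk, a, ha, h2⟩ := (hmS X).1 hX
    rw [hmS]
    refine ⟨Submodule.smul_mem _ _ h1, k * t.den, ?_, a ^ t.num, A.zpow_mem ha _, ?_⟩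
    · exact Nat.mul_pos hk t.den_pos
    · rw [MAL_zpow hEXJ a _ ((MAL_nil A hA X h1).smul _) h2 t.num, smul_smul, smul_smul]
      congr 2
      have h3 : (t.num : ℚ) = t * t.den := (Rat.mul_den_eq_num t).symm
      push_cast
      rw [h3]
      ring
  have hSm : ∀ X ∈ S, ∀ Y ∈ S, ∃ Z ∈ S, IsNilpotent.exp Z = IsNilpotent.exp X * IsNilpotent.exp Y := by
    intro X hX Y hY
    obtain ⟨h1, k, hk, a, ha, h2⟩ := (hmS X).1 hX
    obtain ⟨h1', k', hk', a', ha', h2'⟩ := (hmS Y).1 hY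
    have hu := MAL_exp A hA X h1
    have hv := MAL_exp A hA Y h1'
    -- the group
    let B : Subgroup U :=
      { carrier := {u | ∃ c ∈ A, (((u : (MQ n)ˣ)) : MQ n) = qg c}
        one_mem' := ⟨1, A.one_mem, by rw [qg_one]; rfl⟩
        mul_mem' := by
          rintro u v ⟨c, hc, h3⟩ ⟨d, hd, h4⟩
          refine ⟨c * d, A.mul_mem hc hd, ?_⟩
          rw [qg_mul, ← h3, ← h4]
          rfl
        inv_mem' := by
          rintro u ⟨c, hc, h3⟩
          refine ⟨c⁻¹, A.inv_mem hc, ?_⟩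
          have h5 : (((u : (MQ n)ˣ)⁻¹ : (MQ n)ˣ) : MQ n) * ((u : (MQ n)ˣ) : MQ n) = 1 := Units.inv_mul _
          calc ((((u⁻¹ : U) : (MQ n)ˣ)) : MQ n) = (((u : (MQ n)ˣ)⁻¹ : (MQ n)ˣ) : MQ n) * (qg c * qg c⁻¹) := by
                rw [qg_mul_inv, mul_one]; rfl
            _ = qg c⁻¹ := by rw [← h3, ← mul_assoc, h5, one_mul] }
    have hB : ∀ u : U, u ∈ B ↔ ∃ c ∈ A, (((u : (MQ n)ˣ)) : MQ n) = qg c := fun u => Iff.rfl
    let x : U := ⟨(hU3 _ hu).unit, (hU1 _).2 (by rw [IsUnit.unit_spec]; exact hu)⟩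
    let y : U := ⟨(hU3 _ hv).unit, (hU1 _).2 (by rw [IsUnit.unit_spec]; exact hv)⟩
    have hx : ((x : (MQ n)ˣ) : MQ n) = IsNilpotent.exp X := IsUnit.unit_spec _
    have hy : ((y : (MQ n)ˣ) : MQ n) = IsNilpotent.exp Y := IsUnit.unit_spec _
    have hxk : x ^ k ∈ B := by
      rw [hB]
      refine ⟨a, ha, ?_⟩
      rw [h2, ← (hEXJ n X (MAL_nil A hA X h1)).1 k, ← hx]
      rfl
    have hyk : y ^ k' ∈ B := by
      rw [hB]
      refine ⟨a', ha', ?_⟩
      rw [h2', ← (hEXJ n Y (MAL_nil A hA Y h1')).1 k', ← hy]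
      rfl
    obtain ⟨m, hm0, hmB⟩ := hISO U hU2 B x y k k' hk hk' hxk hyk
    obtain ⟨c, hc, h3⟩ := (hB _).1 hmB
    have h3' : (IsNilpotent.exp X * IsNilpotent.exp Y) ^ m = qg c := by
      rw [← h3, ← hx, ← hy]
      rfl
    have hM : IsNilpotent.exp X * IsNilpotent.exp Y - 1 ∈ MAL_fil A 1 := by
      have e1 : IsNilpotent.exp X * IsNilpotent.exp Y - 1 =
          (IsNilpotent.exp X - 1) * (IsNilpotent.exp Y - 1) + (IsNilpotent.exp X - 1) +
            (IsNilpotent.exp Y - 1) := by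
        noncomm_ring
      rw [e1]
      exact Submodule.add_mem _ (Submodule.add_mem _
        (MAL_le A (by omega) (MAL_mul A 1 1 _ hu _ hv)) hu) hv
    have hZ1 := MAL_aev A _ hM P hPX
    have hZ2 : IsNilpotent.exp (Polynomial.aeval (IsNilpotent.exp X * IsNilpotent.exp Y - 1) P) =
        IsNilpotent.exp X * IsNilpotent.exp Y := by
      rw [hP2 _ (MAL_nil A hA _ hM)]
      abel
    refine ⟨_, ?_, hZ2⟩
    rw [hmS]
    refine ⟨hZ1, m, hm0, c, hc, ?_⟩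
    rw [← (hEXJ n _ (MAL_nil A hA _ hZ1)).1 m, hZ2, h3']
  have hSa := hLIN n (MAL_fil A) hm hs hb S hS1 hS0 hSs hSm
  refine ⟨{ carrier := S, add_mem' := fun {a b} ha hb => hSa a ha b hb, zero_mem' := hS0,
            smul_mem' := fun c x hx => hSs x hx c }, ?_, ?_, ?_⟩
  · obtain ⟨N, hN⟩ := hb
    refine ⟨N, fun l hl hlN => ?_⟩
    have h1 : ∀ l : List (MQ n), (∀ X ∈ l, X ∈ MAL_fil A 1) → l.prod ∈ MAL_fil A l.length := by
      intro l
      induction l with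
      | nil => intro _; exact MAL_one A
      | cons X l ih =>
        intro h
        rw [List.prod_cons, List.length_cons, Nat.add_comm]
        exact MAL_mul A 1 _ _ (h X (List.mem_cons_self)) _ (ih fun Y hY => h Y (List.mem_cons_of_mem _ hY))
    have h2 := MAL_le A hlN (h1 l fun X hX => hS1 X (hl X hX))
    rwa [hN, Submodule.mem_bot] at h2
  · intro X hX
    exact ((hmS X).1 hX).2
  · intro a ha
    have h1 : qg a - 1 ∈ MAL_fil A 1 :=
      Submodule.subset_span ⟨[a], by simpa using ha, by simp, by simp⟩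
    have h2 : IsNilpotent.exp (Polynomial.aeval (qg a - 1) P) = qg a := by
      rw [hP2 _ (MAL_nil A hA _ h1)]
      abel
    refine ⟨Polynomial.aeval (qg a - 1) P, ?_, h2.symm⟩
    show _ ∈ S
    rw [hmS]
    refine ⟨MAL_aev A _ h1 P hPX, 1, le_rfl, a, ha, ?_⟩
    rw [Nat.cast_one, one_smul, h2]

end Pool.Agent.UG
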